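import Mathlib

set_option autoImplicit false

namespace Pool.Agent.Results.MP_be8152_al.Empty

variable {k : Type*} [Field k] {V : Type*} [AddCommGroup V] [Module k V]

def IsFour (mul : V →ₗ[k] V →ₗ[k] V) : Prop :=
  (∀ x y, mul x y = mul y x) ∧ ∀ x, mul (mul x x) (mul x x) = 0

def IsBO (mul : V →ₗ[k] V →ₗ[k] V) (Ω : V →ₗ[k] V) : Prop :=
  Ω ∘ₗ Ω = Ω ∧ ∀ x, mul (mul x x) (Ω x) = 0 ∧ mul (Ω x) (Ω x) + Ω (mul x x) = mul x x

def Eqv (mul : V →ₗ[k] V →ₗ[k] V) (Ω Ω' : V →ₗ[k] V) : Prop :=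
  ∃ (f : V ≃ₗ[k] V) (v₀ : V), (∀ x y, f (mul x y) = mul (f x) (f y)) ∧
    (∀ x, Ω' x = f (Ω (f.symm x)) - (2 : k) • mul x v₀) ∧ Ω' v₀ = v₀ - mul v₀ v₀

lemma lin (h2 : (2 : k) ≠ 0) {mul : V →ₗ[k] V →ₗ[k] V} (hc : ∀ x y, mul x y = mul y x)
    {Ω : V →ₗ[k] V} (h : IsBO mul Ω) (x y : V) : mul (Ω x) (Ω y) + Ω (mul x y) = mul x y := by
  have a := (h.2 (x + y)).2
  have b := (h.2 x).2
  have c := (h.2 y).2
  simp only [map_add, LinearMap.add_apply, hc y x, hc (Ω y) (Ω x)] at a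
  apply smul_right_injective V h2
  simp only [two_smul]
  linear_combination (norm := abel1) a - b - c

lemma vvu (h2 : (2 : k) ≠ 0) {mul : V →ₗ[k] V →ₗ[k] V} {Ω : V →ₗ[k] V} (h : IsBO mul Ω)
    {u v : V} (hu : Ω u = u) (hv : Ω v = 0) : mul (mul v v) u = 0 := by
  have a := (h.2 (u + v)).1
  have b := (h.2 (u - v)).1
  have c := (h.2 u).1
  simp only [map_add, map_sub, LinearMap.add_apply, LinearMap.sub_apply, hu, hv, add_zero,
    sub_zero] at a b c
  apply smul_right_injective V h2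
  simp only [two_smul]
  linear_combination (norm := abel1) a + b - c - c

def mul7 (k : Type*) [Field k] : (Fin 7 → k) →ₗ[k] (Fin 7 → k) →ₗ[k] (Fin 7 → k) :=
  LinearMap.mk₂ k (fun p q => ![0, 0, p 0 * q 0, p 0 * q 1 + p 1 * q 0, p 1 * q 1,
      p 0 * q 2 + p 2 * q 0, p 3 * q 3 - 2 * (p 2 * q 4 + p 4 * q 2)])
    (fun _ _ _ => by ext i; fin_cases i <;> simp <;> ring)
    (fun _ _ _ => by ext i; fin_cases i <;> simp <;> ring)
    (fun _ _ _ => by ext i; fin_cases i <;> simp <;> ring)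
    (fun _ _ _ => by ext i; fin_cases i <;> simp <;> ring)

def mul4 (k : Type*) [Field k] : (Fin 4 → k) →ₗ[k] (Fin 4 → k) →ₗ[k] (Fin 4 → k) :=
  LinearMap.mk₂ k (fun p q => ![0, p 0 * q 0, 0, 0])
    (fun _ _ _ => by ext i; fin_cases i <;> simp; ring)
    (fun _ _ _ => by ext i; fin_cases i <;> simp; ring)
    (fun _ _ _ => by ext i; fin_cases i <;> simp; ring)
    (fun _ _ _ => by ext i; fin_cases i <;> simp; ring)

lemma none7 (h2 : (2 : k) ≠ 0) (Ω : (Fin 7 → k) →ₗ[k] (Fin 7 → k)) : ¬ IsBO (mul7 k) Ω := by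
  intro h
  have hc : ∀ x y, mul7 k x y = mul7 k y x := fun x y => by
    ext i; fin_cases i <;> simp [mul7] <;> ring
  have hl := lin h2 hc h
  have hU : ∀ x, Ω (Ω x) = Ω x := fun x => LinearMap.congr_fun h.1 x
  have hV : ∀ x, Ω (x - Ω x) = 0 := fun x => by rw [map_sub, hU, sub_self]
  let d : Fin 7 → k := Pi.single 6 1
  have e1 : ∀ u v, mul7 k (mul7 k u v) (mul7 k u v) = ((u 0 * v 1 - u 1 * v 0) ^ 2) • d :=
    fun u v => by ext i; fin_cases i <;> simp [mul7, d]; ring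
  have e2 : ∀ u v, mul7 k (mul7 k u u) (mul7 k v v) =
      (-2 : k) • ((u 0 * v 1 - u 1 * v 0) ^ 2) • d :=
    fun u v => by ext i; fin_cases i <;> simp [mul7, d]; ring
  have fin : ∀ t : k, (-2 : k) • (t ^ 2) • d = 0 → t = 0 := fun t ht => by
    have := congrFun ht 6
    simpa [d, h2] using this
  have u0 : ∀ u, Ω u = u → u 0 = 0 := fun u hu => by
    have := congrFun (h.2 u).1 5
    simpa [hu, mul7] using this
  have vv : ∀ v w, Ω v = 0 → Ω w = 0 → v 0 * w 1 - v 1 * w 0 = 0 := fun v w hv hw => by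
    have a := hl w w
    rw [hw, map_zero, zero_add] at a
    have := vvu h2 h a hv
    exact fin _ (e2 v w ▸ this)
  have uv : ∀ u v, Ω u = u → Ω v = 0 → u 0 * v 1 - u 1 * v 0 = 0 := fun u v hu hv => by
    have a := hl u u
    rw [hu, add_eq_left] at a
    have b := hl u v
    rw [hv, map_zero, zero_add] at b
    have c := hl (mul7 k u u) (mul7 k v v)
    rw [a, map_zero, LinearMap.zero_apply, zero_add, e2, map_smul] at c
    have e := hl (mul7 k u v) (mul7 k u v)
    rw [b, add_eq_left, e1] at e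
    rw [e, smul_zero] at c
    exact fin _ c.symm
  let x : Fin 7 → k := Pi.single 0 1
  let y : Fin 7 → k := Pi.single 1 1
  have a := u0 _ (hU x)
  have a' := u0 _ (hU y)
  have b := vv _ _ (hV x) (hV y)
  have c := uv _ _ (hU y) (hV x)
  simp [x, y] at a a' b c
  rw [a, a'] at b c
  apply one_ne_zero (α := k)
  linear_combination b - c

def diag (a b c : k) : (Fin 4 → k) →ₗ[k] (Fin 4 → k) :=
  Matrix.toLin' (Matrix.diagonal ![a, 1 - a, b, c])

lemma diag_BO (a b c : k) (ha : a * a = a) (hb : b * b = b) (hc : c * c = c) :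
    IsBO (mul4 k) (diag a b c) := by
  refine ⟨?_, fun x => ⟨?_, ?_⟩⟩
  · rw [diag, ← Matrix.toLin'_mul, Matrix.diagonal_mul_diagonal]
    congr 2
    ext i; fin_cases i <;> simp [ha, hb, hc]
    linear_combination ha
  · ext i; fin_cases i <;> simp [mul4]
  · ext i; fin_cases i <;> simp [mul4, diag, Matrix.mulVec_diagonal]
    linear_combination (x 0 * x 0) * ha

lemma diag_inv {a b c a' b' c' : k} (h : Eqv (mul4 k) (diag a b c) (diag a' b' c')) :
    a = a' ∧ b + c = b' + c' := by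
  obtain ⟨f, v, hf, h, -⟩ := h
  constructor
  · let x : Fin 4 → k := Pi.single 0 1
    have e : ∀ (a b c : k) (z : Fin 4 → k), diag a b c (mul4 k z z) = (1 - a) • mul4 k z z :=
      fun a b c z => by ext i; fin_cases i <;> simp [mul4, diag, Matrix.mulVec_diagonal]
    have e0 : ∀ z : Fin 4 → k, mul4 k (mul4 k z z) v = 0 := fun z => by
      ext i; fin_cases i <;> simp [mul4]
    have h1 := h (f (mul4 k (f.symm x) (f.symm x)))
    rw [f.symm_apply_apply, e, map_smul, hf, f.apply_symm_apply, e, e0] at h1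
    have := congrFun h1 1
    simp [mul4, x] at this
    exact this.symm
  · have h1 : diag a' b' c' = f.conj (diag a b c) -
        (2 : k) • Matrix.toLin' (Matrix.single 1 0 (v 0)) := by
      refine LinearMap.ext fun x => ?_
      rw [h x]
      congr 2
      ext i; fin_cases i <;> simp [mul4, Matrix.mulVec, dotProduct, Fin.sum_univ_four, mul_comm]
    have h2 := congrArg (LinearMap.trace k _) h1
    rw [map_sub, map_smul, LinearMap.trace_conj'] at h2
    simp [diag, Matrix.trace, Fin.sum_univ_four] at h2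
    linear_combination -h2

theorem result (k : Type*) [Field k] (h2 : (2 : k) ≠ 0) :
    ∃ mul : (Fin 7 → k) →ₗ[k] (Fin 7 → k) →ₗ[k] (Fin 7 → k),
      IsFour mul ∧ ∀ Ω, ¬ IsBO mul Ω := by
  refine ⟨mul7 k, ⟨fun x y => ?_, fun x => ?_⟩, none7 h2⟩
  · ext i; fin_cases i <;> simp [mul7] <;> ring
  · ext i; fin_cases i <;> simp [mul7]; ring

end Pool.Agent.Results.MP_be8152_al.Empty
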